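import Pool.Agent.Helper64.DT.Stmts

/-!
# MP_866009_co, module N5O: tournaments given by an order and switching
-/

set_option autoImplicit false

namespace Pool.Agent.Helper64.DT

theorem n5o_dec : ∀ p q r s t u a b c d e : Bool,
    ((p && q && r) || (!p && !q && !r) || (p && t && !s) || (!p && s && !t) ||
    (q && u && !t) || (!q && t && !u) || (r && s && !u) || (!r && u && !s) ||
    !(xor (xor a b) (xor p e)) || !(xor (xor b c) (xor q e)) || !(xor (xor c a) (xor r e)) ||
    !((xor (xor a d) (xor s e) == xor (xor b d) (xor t e)) &&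
      (xor (xor b d) (xor t e) == xor (xor c d) (xor u e)))) = true := by
  decide +kernel

theorem n5o_bool (p q r s t u a b c d e : Bool)
    (h1 : (p && q && r) = false) (h2 : (!p && !q && !r) = false)
    (h3 : (p && t && !s) = false) (h4 : (!p && s && !t) = false)
    (h5 : (q && u && !t) = false) (h6 : (!q && t && !u) = false)
    (h7 : (r && s && !u) = false) (h8 : (!r && u && !s) = false)
    (h9 : xor (xor a b) (xor p e) = true) (h10 : xor (xor b c) (xor q e) = true)
    (h11 : xor (xor c a) (xor r e) = true) :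
    ¬ (xor (xor a d) (xor s e) = xor (xor b d) (xor t e) ∧
      xor (xor b d) (xor t e) = xor (xor c d) (xor u e)) := by
  rintro ⟨h12, h13⟩
  have h := n5o_dec p q r s t u a b c d e
  rw [h1, h2, h3, h4, h5, h6, h7, h8, h9, h10, h11, h12, h13] at h
  simp at h

theorem st_N5O : ST_N5O := by
  intro V θ κ δ b S hinj hb x hx y hy z hz w hw hxy hyz hzx hwx hwy hwz h1 h2 h3
  have nxy : θ x ≠ θ y := fun h => hxy (hinj hx hy h)
  have nyz : θ y ≠ θ z := fun h => hyz (hinj hy hz h)
  have nzx : θ z ≠ θ x := fun h => hzx (hinj hz hx h)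
  have nwx : θ w ≠ θ x := fun h => hwx (hinj hw hx h)
  have nwy : θ w ≠ θ y := fun h => hwy (hinj hw hy h)
  have nwz : θ w ≠ θ z := fun h => hwz (hinj hw hz h)
  rw [hb x hx y hy hxy] at h1
  rw [hb y hy z hz hyz] at h2
  rw [hb z hz x hx hzx] at h3
  rw [hb x hx w hw hwx.symm, hb y hy w hw hwy.symm, hb z hz w hw hwz.symm]
  refine n5o_bool _ _ _ _ _ _ _ _ _ _ _ ?_ ?_ ?_ ?_ ?_ ?_ ?_ ?_ h1 h2 h3
  all_goals
    simp only [Bool.and_eq_false_iff, decide_eq_false_iff_not, Bool.not_eq_false', decide_eq_true_eq]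
    omega

end Pool.Agent.Helper64.DT
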